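import Mathlib

/-!
# Hyponormal roots of spherically quasinormal tuples
-/

set_option autoImplicit false

namespace Pool.Agent.Results.MP_20dafb_an.HyponormalRoots

open Filter Topology ContinuousLinearMap

section defs

variable {H : Type*} [NormedAddCommGroup H] [InnerProductSpace ℂ H] [CompleteSpace H]

/-- `T` is a commuting tuple. -/
def IsCommuting {d : ℕ} (T : Fin d → H →L[ℂ] H) : Prop :=
  ∀ i j, T i * T j = T j * T i

/-- The operator matrix with entries `[T_j^*, T_i]` is positive on the direct sum of `d` copies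
of `H`. -/
def IsJointlyHyponormal {d : ℕ} (T : Fin d → H →L[ℂ] H) : Prop :=
  ∀ h : Fin d → H,
    0 ≤ (∑ i, ∑ j, (inner ℂ (h i) ((adjoint (T j) * T i - T i * adjoint (T j)) (h j)) : ℂ)).re

/-- Every `T i` commutes with `∑ j, T_j^* T_j`. -/
def IsSphericallyQuasinormal {ι : Type} [Fintype ι] (T : ι → H →L[ℂ] H) : Prop :=
  ∀ i, T i * (∑ j, adjoint (T j) * T j) = (∑ j, adjoint (T j) * T j) * T i

/-- The power `T ^ n`: the tuple of all products `T_{w 0} T_{w 1} ⋯ T_{w (n-1)}`. -/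
noncomputable def tuplePower {d : ℕ} (T : Fin d → H →L[ℂ] H) (n : ℕ) :
    (Fin n → Fin d) → H →L[ℂ] H :=
  fun w => (List.ofFn fun k => T (w k)).prod

end defs

/-! ### Partition of unity -/

/-- hat functions -/
noncomputable def hat (x : ℝ) (i : ℕ) : ℝ := max 0 (1 - |x - i|)

lemma hat_nonneg (x : ℝ) (i : ℕ) : 0 ≤ hat x i := le_max_left _ _

lemma hat_le_one (x : ℝ) (i : ℕ) : hat x i ≤ 1 := by
  unfold hat
  apply max_le zero_le_one
  have := abs_nonneg (x - i)
  linarith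

lemma hat_zero {x : ℝ} {i : ℕ} (h : 1 ≤ |x - i|) : hat x i = 0 := by
  unfold hat
  exact max_eq_left (by linarith)

lemma hat_sum (N : ℕ) (x : ℝ) (h0 : 0 ≤ x) (h1 : x ≤ N) :
    ∑ i ∈ Finset.range (N + 1), hat x i = 1 := by
  induction N with
  | zero =>
    have : x = 0 := le_antisymm (by simpa using h1) h0
    subst this
    simp [hat]
  | succ N ih =>
    rw [Finset.sum_range_succ]
    rcases le_or_gt x N with h | h
    · rw [ih h, hat_zero, add_zero]
      push_cast
      rw [abs_of_nonpos (by linarith)]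
      linarith
    · rw [Finset.sum_range_succ, Finset.sum_eq_zero]
      · push_cast at h1
        unfold hat
        push_cast
        rw [abs_of_pos (by linarith), abs_of_nonpos (by linarith), max_eq_right (by linarith),
          max_eq_right (by linarith)]
        ring
      · intro i hi
        rw [Finset.mem_range] at hi
        apply hat_zero
        have h2 : ((i + 1 : ℕ) : ℝ) ≤ N := by exact_mod_cast hi
        push_cast at h2
        rw [abs_of_pos (by linarith)]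
        linarith

lemma hat_sq_sum (N : ℕ) (x : ℝ) (h0 : 0 ≤ x) (h1 : x ≤ N) :
    ∑ i ∈ Finset.range (N + 1), hat x i ^ 2 ≤ 1 := by
  rw [← hat_sum N x h0 h1]
  apply Finset.sum_le_sum
  intro i _
  have := hat_nonneg x i
  have := hat_le_one x i
  nlinarith

/-! ### Log-convex sequences -/

lemma logconvex {a : ℕ → ℝ} (h0 : ∀ k, 0 ≤ a k) (h : ∀ k, a (k + 1) ^ 2 ≤ a k * a (k + 2))
    (n : ℕ) (hn : 1 ≤ n) (hpos : 0 < a n) : a 2 * a n ^ 2 ≤ a 1 ^ 2 * a (2 * n) := by
  -- all a k with k ≥ 1 are positive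
  have hdown : ∀ k, 0 < a (k + 1) → 0 < a k := by
    intro k hk
    rcases (h0 k).lt_or_eq with h1 | h1
    · exact h1
    · exfalso
      have h2 := h k
      rw [← h1, zero_mul] at h2
      nlinarith
  have hdown' : ∀ k m, 0 < a (k + m) → 0 < a k := by
    intro k m
    induction m with
    | zero => intro h; exact h
    | succ m ih => intro hk; exact ih (hdown _ hk)
  have hup : ∀ k, 0 < a k → 0 < a (k + 1) → 0 < a (k + 2) := by
    intro k _ h2
    rcases (h0 (k + 2)).lt_or_eq with h1 | h1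
    · exact h1
    · exfalso
      have h3 := h k
      rw [← h1, mul_zero] at h3
      nlinarith
  have hn' : 0 < a (n - 1) := by
    apply hdown
    rwa [Nat.sub_add_cancel hn]
  have hup' : ∀ m, 0 < a (n - 1 + m) ∧ 0 < a (n - 1 + m + 1) := by
    intro m
    induction m with
    | zero => exact ⟨hn', by rw [add_zero, Nat.sub_add_cancel hn]; exact hpos⟩
    | succ m ih => exact ⟨ih.2, hup _ ih.1 ih.2⟩
  have hall : ∀ k, 0 < a k := by
    intro k
    exact hdown' k (n - 1) (by rw [add_comm]; exact (hup' k).1)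
  -- the ratios are nondecreasing
  set r : ℕ → ℝ := fun k => a (k + 1) / a k with hr
  have hrm : Monotone r := monotone_nat_of_le_succ fun k => by
    rw [hr]
    simp only
    rw [div_le_div_iff₀ (hall k) (hall (k + 1))]
    have := h k
    nlinarith
  have hrpos : ∀ k, 0 < r k := fun k => div_pos (hall _) (hall _)
  have hprod : ∀ k m, a (k + m) = a k * ∏ i ∈ Finset.range m, r (k + i) := by
    intro k m
    induction m with
    | zero => simp
    | succ m ih =>
      rw [Finset.prod_range_succ, ← mul_assoc, ← ih, hr]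
      simp only
      rw [← add_assoc, mul_div_cancel₀ _ (hall _).ne']
  obtain ⟨m, rfl⟩ : ∃ m, n = m + 1 := ⟨n - 1, by omega⟩
  -- a_n = a_1 ∏_{i<m} r (1+i), a_2 = a_1 r 1, a_{2n} = a_n ∏_{i<m+1} r (n+i)
  have e1 : a (m + 1) = a 1 * ∏ i ∈ Finset.range m, r (1 + i) := by
    rw [← hprod, add_comm]
  have e2 : a 2 = a 1 * r 1 := by
    have := hprod 1 1
    simpa using this
  have e3 : a (2 * (m + 1)) = a (m + 1) * ∏ i ∈ Finset.range (m + 1), r (m + 1 + i) := by
    rw [← hprod]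
    congr 1
    ring
  have e4 : r 1 * ∏ i ∈ Finset.range m, r (1 + i) ≤ ∏ i ∈ Finset.range (m + 1), r (m + 1 + i) := by
    rw [Finset.prod_range_succ, mul_comm]
    apply mul_le_mul
    · apply Finset.prod_le_prod
      · intro i _
        exact (hrpos _).le
      · intro i _
        exact hrm (by omega)
    · exact hrm (by omega)
    · exact (hrpos _).le
    · exact Finset.prod_nonneg fun i _ => (hrpos _).le
  rw [e3]
  calc a 2 * a (m + 1) ^ 2 = a 1 * a 1 * a (m + 1) * (r 1 * ∏ i ∈ Finset.range m, r (1 + i)) := by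
        rw [e2, pow_two]
        nth_rewrite 1 [e1]
        ring
    _ ≤ a 1 * a 1 * a (m + 1) * ∏ i ∈ Finset.range (m + 1), r (m + 1 + i) := by
        have := hall 1
        have := hall (m + 1)
        gcongr
    _ = _ := by ring

lemma logconvex_zero {a : ℕ → ℝ} (h : ∀ k, a (k + 1) ^ 2 ≤ a k * a (k + 2))
    (n : ℕ) (hn : 2 ≤ n) (hz : a n = 0) : a 2 = 0 := by
  have key : ∀ m, a (2 + m) = 0 → a 2 = 0 := by
    intro m
    induction m with
    | zero => intro h; exact h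
    | succ m ih =>
      intro hm
      apply ih
      have h1 := h (1 + m)
      have e1 : 1 + m + 1 = 2 + m := by ring
      have e2 : 1 + m + 2 = 2 + (m + 1) := by ring
      rw [e1, e2, hm, mul_zero] at h1
      have := sq_nonneg (a (2 + m))
      exact pow_eq_zero_iff (two_ne_zero) |>.1 (le_antisymm h1 this)
  apply key (n - 2)
  rw [Nat.add_sub_cancel' hn]
  exact hz

/-! ### Localisation -/

section loc

variable {H : Type*} [NormedAddCommGroup H] [InnerProductSpace ℂ H] [CompleteSpace H]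

omit [CompleteSpace H] in
lemma re_inner_mono {A B : H →L[ℂ] H} (h : A ≤ B) (v : H) :
    (inner ℂ v (A v) : ℂ).re ≤ (inner ℂ v (B v) : ℂ).re := by
  have h1 := ((ContinuousLinearMap.le_def A B).1 h).re_inner_nonneg_right v
  rw [sub_apply, inner_sub_right, map_sub] at h1
  have h2 : RCLike.re (inner ℂ v (B v) : ℂ) = (inner ℂ v (B v) : ℂ).re := rfl
  have h3 : RCLike.re (inner ℂ v (A v) : ℂ) = (inner ℂ v (A v) : ℂ).re := rfl
  linarith

lemma cfc_norm_sq (B : H →L[ℂ] H) (f : ℝ → ℝ) (hf : Continuous f) (v : H) :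
    ‖cfc f B v‖ ^ 2 = (inner ℂ v (cfc (fun t => f t ^ 2) B v) : ℂ).re := by
  have h1 : cfc (fun t => f t ^ 2) B = cfc f B * cfc f B := by
    rw [← cfc_mul f f B hf.continuousOn hf.continuousOn]
    congr 1
    funext t
    ring
  have h2 : adjoint (cfc f B) = cfc f B := (cfc_predicate f B : IsSelfAdjoint (cfc f B))
  have h3 : (inner ℂ v ((cfc f B * cfc f B) v) : ℂ) = inner ℂ (cfc f B v) (cfc f B v) := by
    change (inner ℂ v (cfc f B (cfc f B v)) : ℂ) = _
    nth_rewrite 1 [← h2]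
    rw [adjoint_inner_right]
  rw [h1, h3, inner_self_eq_norm_sq_to_K]
  norm_cast

lemma cfc_norm_le (B : H →L[ℂ] H) (f g : ℝ → ℝ) (hf : Continuous f) (hg : Continuous g) (c : ℝ)
    (h : ∀ t ∈ spectrum ℝ B, f t ^ 2 ≤ c * g t ^ 2) (v : H) :
    ‖cfc f B v‖ ^ 2 ≤ c * ‖cfc g B v‖ ^ 2 := by
  rw [cfc_norm_sq B f hf, cfc_norm_sq B g hg]
  have h1 : cfc (fun t => f t ^ 2) B ≤ cfc (fun t => c * g t ^ 2) B :=
    cfc_mono h (by fun_prop) (by fun_prop)
  refine (re_inner_mono h1 v).trans (le_of_eq ?_)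
  rw [cfc_const_mul c (fun t => g t ^ 2) B (by fun_prop)]
  change (inner ℂ v (c • (cfc (fun t => g t ^ 2) B v)) : ℂ).re = _
  rw [inner_smul_right_eq_smul, Complex.real_smul, Complex.re_ofReal_mul]

theorem localise (B X : H →L[ℂ] H) (hB : 0 ≤ B) (K : ℝ) (hK : 0 ≤ K)
    (hX : ∀ (h : H) (l ε : ℝ), 0 < ε → ε < l → ‖B h - l • h‖ ≤ ε * ‖h‖ →
      ‖X h‖ ≤ K / (l - ε) * ε * ‖h‖) : X * B = 0 := by
  have hsa : IsSelfAdjoint B := hB.isSelfAdjoint
  set M : ℝ := ‖B‖ + 1 with hM
  have hM0 : 0 < M := by positivity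
  have hspec : ∀ t ∈ spectrum ℝ B, 0 ≤ t ∧ t ≤ M := by
    intro t ht
    refine ⟨spectrum_nonneg_of_nonneg hB ht, ?_⟩
    have h1 := spectrum.norm_le_norm_mul_of_mem ht
    have h2 : ‖(1 : H →L[ℂ] H)‖ ≤ 1 := ContinuousLinearMap.norm_id_le
    have h3 : ‖B‖ * ‖(1 : H →L[ℂ] H)‖ ≤ ‖B‖ * 1 := by gcongr
    have h4 := le_abs_self t
    rw [Real.norm_eq_abs] at h1
    linarith
  have key : ∀ (g : H) (N : ℕ), 1 ≤ N →
      ‖X (B g)‖ ^ 2 ≤ (2 * (3 * K + 2 * ‖X‖) ^ 2 * M ^ 2 * ‖g‖ ^ 2) / N := by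
    intro g N hN
    have hN0 : (0 : ℝ) < N := by exact_mod_cast hN
    set ε : ℝ := M / N with hε
    have hε0 : 0 < ε := by positivity
    have hεN : ε * N = M := by rw [hε]; field_simp
    set f : ℕ → ℝ → ℝ := fun i t => hat (t / ε) i with hf
    have hfc : ∀ i, Continuous (f i) := by
      intro i
      rw [hf]
      unfold hat
      fun_prop
    have hf0 : ∀ i t, 0 ≤ f i t := fun i t => hat_nonneg _ _
    -- support
    have hsupp : ∀ i t, f i t ≠ 0 → |t - i * ε| ≤ ε := by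
      intro i t hne
      by_contra hlt
      push Not at hlt
      apply hne
      apply hat_zero
      have h1 : t / ε - i = (t - i * ε) / ε := by field_simp
      rw [h1, abs_div, abs_of_pos hε0, le_div_iff₀ hε0]
      linarith
    have hsum1 : ∑ i ∈ Finset.range (N + 1), cfc (f i) B = 1 := by
      rw [← cfc_sum f B (Finset.range (N + 1)) (fun i _ => (hfc i).continuousOn), ← cfc_one ℝ B]
      apply cfc_congr
      intro t ht
      have h1 := hspec t ht
      rw [Finset.sum_apply]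
      exact hat_sum N (t / ε) (div_nonneg h1.1 hε0.le) (by
        rw [div_le_iff₀ hε0, mul_comm, hεN]
        exact h1.2)
    have hsum2 : ∀ v, ∑ i ∈ Finset.range (N + 1), ‖cfc (f i) B v‖ ^ 2 ≤ ‖v‖ ^ 2 := by
      intro v
      have h1 : ∑ i ∈ Finset.range (N + 1), ‖cfc (f i) B v‖ ^ 2 =
          (inner ℂ v (cfc (∑ i ∈ Finset.range (N + 1), fun t => f i t ^ 2) B v) : ℂ).re := by
        rw [cfc_sum (fun i t => f i t ^ 2) B (Finset.range (N + 1))
          (fun i _ => ((hfc i).pow 2).continuousOn), sum_apply, inner_sum, Complex.re_sum]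
        exact Finset.sum_congr rfl fun i _ => cfc_norm_sq B (f i) (hfc i) v
      have h2 : cfc (∑ i ∈ Finset.range (N + 1), fun t => f i t ^ 2) B ≤ (1 : H →L[ℂ] H) := by
        rw [← cfc_one ℝ B]
        apply cfc_mono
        · intro t ht
          have h1 := hspec t ht
          rw [Finset.sum_apply]
          exact hat_sq_sum N (t / ε) (div_nonneg h1.1 hε0.le) (by
            rw [div_le_iff₀ hε0, mul_comm, hεN]
            exact h1.2)
        · apply Continuous.continuousOn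
          have : (∑ i ∈ Finset.range (N + 1), fun t => f i t ^ 2) =
              fun t => ∑ i ∈ Finset.range (N + 1), f i t ^ 2 := by
            funext t
            rw [Finset.sum_apply]
          rw [this]
          exact continuous_finsetSum _ fun i _ => (hfc i).pow 2
        · exact continuousOn_const
      rw [h1]
      refine (re_inner_mono h2 v).trans (le_of_eq ?_)
      rw [one_apply_eq_self, inner_self_eq_norm_sq_to_K]
      norm_cast
    have hcomm : ∀ i v, cfc (f i) B (B v) = B (cfc (f i) B v) := by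
      intro i v
      have h1 : Commute (cfc (f i) B) B := by
        have := cfc_commute_cfc (f i) id B
        rwa [cfc_id ℝ B hsa] at this
      exact congrArg (fun A : H →L[ℂ] H => A v) h1.eq
    -- estimates on the pieces
    have hBid : cfc (fun t : ℝ => t) B = B := cfc_id' ℝ B hsa
    have e1 : ∀ (i : ℕ) v, ‖B (cfc (f i) B v) - ((i : ℝ) * ε) • (cfc (f i) B v)‖ ≤
        ε * ‖cfc (f i) B v‖ := by
      intro i v
      have h1 : B (cfc (f i) B v) - ((i : ℝ) * ε) • (cfc (f i) B v) =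
          cfc (fun t => (t - i * ε) * f i t) B v := by
        rw [cfc_mul (fun t => t - i * ε) (f i) B (by fun_prop) (hfc i).continuousOn,
          cfc_sub (fun t : ℝ => t) (fun _ => (i : ℝ) * ε) B (by fun_prop) (by fun_prop), hBid,
          cfc_const ((i : ℝ) * ε) B hsa, Algebra.algebraMap_eq_smul_one]
        rfl
      rw [h1]
      have h2 := cfc_norm_le B (fun t => (t - i * ε) * f i t) (f i)
        ((by fun_prop : Continuous fun t : ℝ => t - i * ε).mul (hfc i)) (hfc i) (ε ^ 2) (by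
          intro t _
          by_cases hz : f i t = 0
          · simp [hz]
          · rw [mul_pow]
            have h3 := hsupp i t hz
            have h4 : (t - i * ε) ^ 2 ≤ ε ^ 2 := by
              rw [sq_le_sq, abs_of_pos hε0]
              exact h3
            gcongr) v
      rw [← mul_pow] at h2
      exact le_of_sq_le_sq h2 (by positivity)
    have e2 : ∀ (i : ℕ) v, ‖B (cfc (f i) B v)‖ ≤ (i * ε + ε) * ‖cfc (f i) B v‖ := by
      intro i v
      have h1 := e1 i v
      have h2 : ‖B (cfc (f i) B v)‖ ≤ ‖B (cfc (f i) B v) - ((i : ℝ) * ε) • (cfc (f i) B v)‖ +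
          ‖((i : ℝ) * ε) • (cfc (f i) B v)‖ := by
        calc ‖B (cfc (f i) B v)‖ = ‖(B (cfc (f i) B v) - ((i : ℝ) * ε) • (cfc (f i) B v)) +
            ((i : ℝ) * ε) • (cfc (f i) B v)‖ := by rw [sub_add_cancel]
          _ ≤ _ := norm_add_le _ _
      rw [norm_smul, Real.norm_eq_abs, abs_of_nonneg (by positivity)] at h2
      linarith
    have e3 : ∀ i : ℕ, ‖X (cfc (f i) B (B g))‖ ≤ (3 * K + 2 * ‖X‖) * ε * ‖cfc (f i) B g‖ := by
      intro i
      have h1 := e2 i g
      rw [← hcomm] at h1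
      rcases Nat.lt_or_ge i 2 with hi | hi
      · have h2 : (i : ℝ) ≤ 1 := by exact_mod_cast (show i ≤ 1 by omega)
        have h3 : ‖X (cfc (f i) B (B g))‖ ≤ ‖X‖ * ‖cfc (f i) B (B g)‖ := X.le_opNorm _
        have h4 : (i * ε + ε) * ‖cfc (f i) B g‖ ≤ (2 * ε) * ‖cfc (f i) B g‖ := by
          gcongr
          nlinarith
        calc ‖X (cfc (f i) B (B g))‖ ≤ ‖X‖ * ‖cfc (f i) B (B g)‖ := h3
          _ ≤ ‖X‖ * ((2 * ε) * ‖cfc (f i) B g‖) := by
            gcongr
            exact h1.trans h4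
          _ = (0 + 2 * ‖X‖) * ε * ‖cfc (f i) B g‖ := by ring
          _ ≤ (3 * K + 2 * ‖X‖) * ε * ‖cfc (f i) B g‖ := by gcongr; positivity
      · have h2 : (2 : ℝ) ≤ i := by exact_mod_cast hi
        have h3 := hX (cfc (f i) B (B g)) (i * ε) ε hε0 (by nlinarith) (e1 i (B g))
        have h4 : K / (i * ε - ε) * ε = K / (i - 1) := by
          have : (i : ℝ) - 1 ≠ 0 := by linarith
          have h5 : (i : ℝ) * ε - ε = (i - 1) * ε := by ring
          rw [h5]
          field_simp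
        rw [h4] at h3
        have h5 : (0 : ℝ) < i - 1 := by linarith
        calc ‖X (cfc (f i) B (B g))‖ ≤ K / (i - 1) * ‖cfc (f i) B (B g)‖ := h3
          _ ≤ K / (i - 1) * ((i * ε + ε) * ‖cfc (f i) B g‖) := by gcongr
          _ = (K * ((i + 1) / (i - 1))) * ε * ‖cfc (f i) B g‖ := by ring
          _ ≤ (K * 3) * ε * ‖cfc (f i) B g‖ := by
            gcongr
            rw [div_le_iff₀ h5]
            linarith
          _ = (3 * K + 0) * ε * ‖cfc (f i) B g‖ := by ring
          _ ≤ (3 * K + 2 * ‖X‖) * ε * ‖cfc (f i) B g‖ := by gcongr; positivity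
    have e4 : X (B g) = ∑ i ∈ Finset.range (N + 1), X (cfc (f i) B (B g)) := by
      rw [← map_sum, ← sum_apply, hsum1, one_apply_eq_self]
    have e5 : ‖X (B g)‖ ≤ ∑ i ∈ Finset.range (N + 1), (3 * K + 2 * ‖X‖) * ε * ‖cfc (f i) B g‖ := by
      rw [e4]
      exact (norm_sum_le _ _).trans (Finset.sum_le_sum fun i _ => e3 i)
    have e6 : (∑ i ∈ Finset.range (N + 1), ‖cfc (f i) B g‖) ^ 2 ≤ (N + 1) * ‖g‖ ^ 2 := by
      have h1 := sq_sum_le_card_mul_sum_sq (s := Finset.range (N + 1))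
        (f := fun i => ‖cfc (f i) B g‖)
      rw [Finset.card_range] at h1
      push_cast at h1
      refine h1.trans ?_
      have := hsum2 g
      gcongr
    rw [← Finset.mul_sum] at e5
    calc ‖X (B g)‖ ^ 2 ≤ ((3 * K + 2 * ‖X‖) * ε * ∑ i ∈ Finset.range (N + 1), ‖cfc (f i) B g‖) ^ 2 := by
          gcongr
      _ = (3 * K + 2 * ‖X‖) ^ 2 * ε ^ 2 * (∑ i ∈ Finset.range (N + 1), ‖cfc (f i) B g‖) ^ 2 := by ring
      _ ≤ (3 * K + 2 * ‖X‖) ^ 2 * ε ^ 2 * ((N + 1) * ‖g‖ ^ 2) := by gcongr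
      _ ≤ (3 * K + 2 * ‖X‖) ^ 2 * ε ^ 2 * ((2 * N) * ‖g‖ ^ 2) := by
          have : (1 : ℝ) ≤ N := by exact_mod_cast hN
          gcongr
          linarith
      _ = _ := by
          rw [hε]
          field_simp
  ext g
  change X (B g) = 0
  rw [← norm_eq_zero, ← sq_eq_zero_iff]
  set c := 2 * (3 * K + 2 * ‖X‖) ^ 2 * M ^ 2 * ‖g‖ ^ 2 with hc
  have h1 : Tendsto (fun N : ℕ => c / (N : ℝ)) atTop (𝓝 0) := tendsto_const_div_atTop_nhds_zero_nat c
  have h2 : ‖X (B g)‖ ^ 2 ≤ 0 := by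
    apply ge_of_tendsto h1
    filter_upwards [eventually_ge_atTop 1] with N hN
    exact key g N hN
  exact le_antisymm h2 (sq_nonneg _)

end loc

section main

variable {H : Type*} [NormedAddCommGroup H] [InnerProductSpace ℂ H] [CompleteSpace H]
  {d : ℕ} (T : Fin d → H →L[ℂ] H)

/-- `Q k = ∑_{|w| = k} T_w^* T_w` -/
noncomputable def Q : ℕ → H →L[ℂ] H
  | 0 => 1
  | (k + 1) => ∑ i, adjoint (T i) * Q k * T i

/-- the form of `Q k` -/
noncomputable def a (k : ℕ) (h : H) : ℝ := (inner ℂ h (Q T k h) : ℂ).re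

lemma a_zero (h : H) : a T 0 h = ‖h‖ ^ 2 := by
  unfold a Q
  rw [one_apply_eq_self, inner_self_eq_norm_sq_to_K]
  norm_cast

lemma a_succ (k : ℕ) (h : H) : a T (k + 1) h = ∑ i, a T k (T i h) := by
  unfold a
  rw [Q, sum_apply, inner_sum, Complex.re_sum]
  refine Finset.sum_congr rfl fun i _ => ?_
  rw [mul_apply_eq_comp, mul_apply_eq_comp, adjoint_inner_right]

lemma a_nonneg (k : ℕ) (h : H) : 0 ≤ a T k h := by
  induction k generalizing h with
  | zero => rw [a_zero]; positivity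
  | succ k ih =>
    rw [a_succ]
    exact Finset.sum_nonneg fun i _ => ih _

lemma Q_sa (k : ℕ) : adjoint (Q T k) = Q T k := by
  induction k with
  | zero =>
    unfold Q
    exact star_one _
  | succ k ih =>
    rw [Q, map_sum]
    refine Finset.sum_congr rfl fun i _ => ?_
    have h1 : ∀ x y : H →L[ℂ] H, adjoint (x * y) = adjoint y * adjoint x := fun x y => star_mul x y
    rw [h1, h1, adjoint_adjoint, ih, mul_assoc]

lemma a_complex (k : ℕ) (h : H) : (inner ℂ h (Q T k h) : ℂ) = (a T k h : ℂ) := by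
  unfold a
  have h1 : (starRingEnd ℂ) (inner ℂ h (Q T k h)) = inner ℂ h (Q T k h) := by
    rw [inner_conj_symm]
    nth_rewrite 1 [← Q_sa]
    rw [adjoint_inner_left]
  exact (Complex.conj_eq_iff_re.1 h1).symm

lemma Q_one : Q T 1 = ∑ i, adjoint (T i) * T i := by
  rw [Q]
  refine Finset.sum_congr rfl fun i _ => ?_
  rw [Q, mul_one]

variable {T}

/-- the consequence of joint hyponormality -/
lemma hyp_ineq (hT : IsJointlyHyponormal T) (h : Fin d → H) :
    ‖∑ j, adjoint (T j) (h j)‖ ^ 2 ≤ ∑ j, a T 1 (h j) := by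
  have h1 := hT h
  have e1 : (∑ i, ∑ j, (inner ℂ (h i) ((adjoint (T j) * T i - T i * adjoint (T j)) (h j)) : ℂ)) =
      (∑ i, ∑ j, (inner ℂ (T j (h i)) (T i (h j)) : ℂ)) -
        inner ℂ (∑ i, adjoint (T i) (h i)) (∑ j, adjoint (T j) (h j)) := by
    rw [sum_inner, ← Finset.sum_sub_distrib]
    refine Finset.sum_congr rfl fun i _ => ?_
    rw [inner_sum, ← Finset.sum_sub_distrib]
    refine Finset.sum_congr rfl fun j _ => ?_
    rw [sub_apply, inner_sub_right, mul_apply_eq_comp,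
      mul_apply_eq_comp, adjoint_inner_right, adjoint_inner_left]
  have e2 : (inner ℂ (∑ i, adjoint (T i) (h i)) (∑ j, adjoint (T j) (h j)) : ℂ).re =
      ‖∑ j, adjoint (T j) (h j)‖ ^ 2 := by
    rw [inner_self_eq_norm_sq_to_K]
    norm_cast
  rw [e1, Complex.sub_re, e2, sub_nonneg] at h1
  refine h1.trans ?_
  -- ∑ ⟨T_j h_i, T_i h_j⟩ ≤ ∑ ‖T_j h_i‖²
  have e3 : ∀ i j, (inner ℂ (T j (h i)) (T i (h j)) : ℂ).re ≤
      (‖T j (h i)‖ ^ 2 + ‖T i (h j)‖ ^ 2) / 2 := by
    intro i j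
    have h2 := (Complex.re_le_norm _).trans (norm_inner_le_norm (𝕜 := ℂ) (T j (h i)) (T i (h j)))
    nlinarith [sq_nonneg (‖T j (h i)‖ - ‖T i (h j)‖)]
  have e4 : ∑ j, a T 1 (h j) = ∑ i, ∑ j, ‖T j (h i)‖ ^ 2 := by
    refine Finset.sum_congr rfl fun i _ => ?_
    rw [a_succ]
    refine Finset.sum_congr rfl fun j _ => ?_
    rw [a_zero]
  have e5 : ∑ i, ∑ j, ‖T i (h j)‖ ^ 2 = ∑ i, ∑ j, ‖T j (h i)‖ ^ 2 := Finset.sum_comm
  rw [Complex.re_sum]
  simp only [Complex.re_sum]
  calc ∑ i, ∑ j, (inner ℂ (T j (h i)) (T i (h j)) : ℂ).re ≤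
      ∑ i, ∑ j, (‖T j (h i)‖ ^ 2 + ‖T i (h j)‖ ^ 2) / 2 :=
        Finset.sum_le_sum fun i _ => Finset.sum_le_sum fun j _ => e3 i j
    _ = (∑ i, ∑ j, ‖T j (h i)‖ ^ 2 + ∑ i, ∑ j, ‖T i (h j)‖ ^ 2) / 2 := by
        simp only [← Finset.sum_div, ← Finset.sum_add_distrib]
    _ = ∑ j, a T 1 (h j) := by rw [e4, e5]; ring

/-- `Q 1 ^ 2 ≤ Q 2` -/
lemma norm_Q1_le (hT : IsJointlyHyponormal T) (h : H) : ‖Q T 1 h‖ ^ 2 ≤ a T 2 h := by
  have h1 := hyp_ineq hT (fun j => T j h)
  rw [← a_succ] at h1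
  refine le_trans (le_of_eq ?_) h1
  rw [Q_one, sum_apply]
  rfl

lemma a_logconvex (hT : IsJointlyHyponormal T) (k : ℕ) (h : H) :
    a T (k + 1) h ^ 2 ≤ a T k h * a T (k + 2) h := by
  induction k generalizing h with
  | zero =>
    have h1 : a T 1 h ≤ ‖h‖ * ‖Q T 1 h‖ :=
      (Complex.re_le_norm _).trans (norm_inner_le_norm (𝕜 := ℂ) _ _)
    have h2 := norm_Q1_le hT h
    rw [zero_add, zero_add, a_zero]
    calc a T 1 h ^ 2 ≤ (‖h‖ * ‖Q T 1 h‖) ^ 2 := by
          have := a_nonneg T 1 h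
          gcongr
      _ = ‖h‖ ^ 2 * ‖Q T 1 h‖ ^ 2 := by ring
      _ ≤ ‖h‖ ^ 2 * a T 2 h := by gcongr
  | succ k ih =>
    rw [a_succ T (k + 1), a_succ T k, a_succ T (k + 2)]
    -- Cauchy Schwarz
    have h1 : ∀ i, a T (k + 1) (T i h) ≤
        Real.sqrt (a T k (T i h)) * Real.sqrt (a T (k + 2) (T i h)) := by
      intro i
      rw [← Real.sqrt_mul (a_nonneg T k _)]
      exact Real.le_sqrt_of_sq_le (ih (T i h))
    calc (∑ i, a T (k + 1) (T i h)) ^ 2 ≤
        (∑ i, Real.sqrt (a T k (T i h)) * Real.sqrt (a T (k + 2) (T i h))) ^ 2 := by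
          have : 0 ≤ ∑ i, a T (k + 1) (T i h) := Finset.sum_nonneg fun i _ => a_nonneg T _ _
          gcongr with i _
          exact h1 i
      _ ≤ (∑ i, Real.sqrt (a T k (T i h)) ^ 2) * ∑ i, Real.sqrt (a T (k + 2) (T i h)) ^ 2 :=
          Finset.sum_mul_sq_le_sq_mul_sq _ _ _
      _ = _ := by
          simp only [Real.sq_sqrt (a_nonneg T _ _)]

/-! ### Words -/

variable (T) in
/-- `X ↦ ∑ T_i^* X T_i` -/
noncomputable def Theta (X : H →L[ℂ] H) : H →L[ℂ] H := ∑ i, adjoint (T i) * X * T i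

lemma word_sum (n : ℕ) (X : H →L[ℂ] H) :
    ∑ w : Fin n → Fin d, adjoint (tuplePower T n w) * X * tuplePower T n w = (Theta T)^[n] X := by
  induction n generalizing X with
  | zero =>
    rw [Fintype.sum_eq_single (fun i : Fin 0 => i.elim0)]
    · unfold tuplePower
      rw [List.ofFn_zero, List.prod_nil]
      change star (1 : H →L[ℂ] H) * X * 1 = X
      rw [star_one, one_mul, mul_one]
    · intro w hw
      exact absurd (Subsingleton.elim _ _) hw
  | succ n ih =>
    rw [Function.iterate_succ_apply, ← ih]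
    rw [← (Fin.consEquiv (fun _ : Fin (n + 1) => Fin d)).sum_comp, Fintype.sum_prod_type,
      Finset.sum_comm]
    refine Finset.sum_congr rfl fun w _ => ?_
    unfold Theta
    rw [Finset.mul_sum, Finset.sum_mul]
    refine Finset.sum_congr rfl fun i _ => ?_
    have h1 : tuplePower T (n + 1) ((Fin.consEquiv (fun _ : Fin (n + 1) => Fin d)) (i, w)) =
        T i * tuplePower T n w := by
      unfold tuplePower
      rw [List.ofFn_succ, List.prod_cons]
      rfl
    have h2 : ∀ x y : H →L[ℂ] H, adjoint (x * y) = adjoint y * adjoint x := fun x y => star_mul x y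
    rw [h1, h2]
    simp only [mul_assoc]

lemma Q_eq (k : ℕ) : Q T k = (Theta T)^[k] 1 := by
  induction k with
  | zero => rfl
  | succ k ih =>
    rw [Function.iterate_succ_apply', ← ih]
    rfl

lemma Q_word (n : ℕ) : Q T n = ∑ w : Fin n → Fin d, adjoint (tuplePower T n w) * tuplePower T n w := by
  rw [Q_eq, ← word_sum]
  simp only [mul_one]

/-- `Q_{2n} = Q_n ^ 2` -/
lemma Q_two_mul (n : ℕ) (hq : IsSphericallyQuasinormal (tuplePower T n)) :
    Q T (2 * n) = Q T n * Q T n := by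
  have h1 : Q T (2 * n) = (Theta T)^[n] (Q T n) := by
    rw [Q_eq, Q_eq, ← Function.iterate_add_apply]
    congr 1
    ring
  rw [h1, ← word_sum]
  nth_rewrite 2 [Q_word]
  rw [Finset.sum_mul]
  refine Finset.sum_congr rfl fun w _ => ?_
  have h2 := hq w
  rw [← Q_word] at h2
  rw [mul_assoc, ← h2, mul_assoc]

lemma a_two_mul (n : ℕ) (hq : IsSphericallyQuasinormal (tuplePower T n)) (h : H) :
    a T (2 * n) h = ‖Q T n h‖ ^ 2 := by
  unfold a
  rw [Q_two_mul n hq]
  change (inner ℂ h (Q T n (Q T n h)) : ℂ).re = _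
  rw [← Q_sa T n, adjoint_inner_right, Q_sa, inner_self_eq_norm_sq_to_K]
  norm_cast

/-- `Q 2 = Q 1 ^ 2` -/
theorem Q2_eq (hT : IsJointlyHyponormal T) (n : ℕ) (hn : 2 ≤ n)
    (hq : IsSphericallyQuasinormal (tuplePower T n)) : Q T 2 = Q T 1 * Q T 1 := by
  set R : H →L[ℂ] H := Q T 2 - Q T 1 * Q T 1 with hR
  have hRa : ∀ h, (inner ℂ h (R h) : ℂ) = ((a T 2 h - ‖Q T 1 h‖ ^ 2 : ℝ) : ℂ) := by
    intro h
    have h1 : (inner ℂ h ((Q T 1 * Q T 1) h) : ℂ) = ((‖Q T 1 h‖ ^ 2 : ℝ) : ℂ) := by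
      change (inner ℂ h (Q T 1 (Q T 1 h)) : ℂ) = _
      nth_rewrite 1 [← Q_sa T 1]
      rw [adjoint_inner_right, inner_self_eq_norm_sq_to_K]
      norm_cast
    rw [hR, sub_apply, inner_sub_right, a_complex, h1]
    push_cast
    rfl
  have hRsa : IsSelfAdjoint R := by
    have h2 : ∀ x y : H →L[ℂ] H, adjoint (x * y) = adjoint y * adjoint x := fun x y => star_mul x y
    change adjoint R = R
    rw [hR, map_sub, h2, Q_sa, Q_sa]
  have hRpos : 0 ≤ R := by
    rw [ContinuousLinearMap.nonneg_iff_isPositive, ContinuousLinearMap.isPositive_iff']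
    refine ⟨hRsa, fun x => ?_⟩
    have h1 : (inner ℂ (R x) x : ℂ) = inner ℂ x (R x) := by
      have h2 : adjoint R = R := hRsa
      nth_rewrite 1 [← h2]
      rw [adjoint_inner_left]
    rw [h1, hRa]
    have := norm_Q1_le hT x
    rw [Complex.zero_le_real]
    linarith
  obtain ⟨X, hX⟩ := CStarAlgebra.nonneg_iff_eq_star_mul_self.1 hRpos
  have hXn : ∀ h, ‖X h‖ ^ 2 = a T 2 h - ‖Q T 1 h‖ ^ 2 := by
    intro h
    have h1 := hRa h
    rw [hX] at h1
    change (inner ℂ h (adjoint X (X h)) : ℂ) = _ at h1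
    rw [adjoint_inner_right, inner_self_eq_norm_sq_to_K] at h1
    apply Complex.ofReal_injective
    rw [← h1]
    push_cast
    rfl
  set B := Q T n with hB
  have hBpos : 0 ≤ B := by
    rw [ContinuousLinearMap.nonneg_iff_isPositive, ContinuousLinearMap.isPositive_iff']
    refine ⟨Q_sa T n, fun x => ?_⟩
    have h1 : (inner ℂ (B x) x : ℂ) = inner ℂ x (B x) := by
      nth_rewrite 1 [hB]
      rw [← Q_sa, adjoint_inner_left]
    rw [h1, hB, a_complex, Complex.zero_le_real]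
    exact a_nonneg T n x
  have hlc := fun h : H => fun k => a_logconvex hT k h
  have hXB : X * B = 0 := by
    apply localise B X hBpos ‖Q T 1‖ (norm_nonneg _)
    intro h l ε hε hl hh
    by_cases hh0 : h = 0
    · simp [hh0]
    have hn0 : 0 < ‖h‖ := norm_pos_iff.2 hh0
    -- lower bound for a n h
    have h1 : (l - ε) * ‖h‖ ^ 2 ≤ a T n h := by
      have h2 : (inner ℂ h (B h - l • h) : ℂ).re = a T n h - l * ‖h‖ ^ 2 := by
        rw [inner_sub_right, Complex.sub_re, inner_smul_right_eq_smul, Complex.real_smul,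
          Complex.re_ofReal_mul, inner_self_eq_norm_sq_to_K]
        norm_cast
      have h3 : |(inner ℂ h (B h - l • h) : ℂ).re| ≤ ‖h‖ * (ε * ‖h‖) :=
        (Complex.abs_re_le_norm _).trans ((norm_inner_le_norm _ _).trans (by gcongr))
      rw [h2] at h3
      have h4 := (abs_le.1 h3).1
      nlinarith
    have hlε : 0 < l - ε := by linarith
    have ha_pos : 0 < a T n h := lt_of_lt_of_le (by positivity) h1
    have hlog := logconvex (a := fun k => a T k h) (fun k => a_nonneg T k h) (hlc h) n (by omega)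
      ha_pos
    rw [a_two_mul n hq] at hlog
    -- a 1 bounds
    have ha1 : a T 1 h ≤ ‖Q T 1‖ * ‖h‖ ^ 2 := by
      have h2 : a T 1 h ≤ ‖h‖ * ‖Q T 1 h‖ :=
        (Complex.re_le_norm _).trans (norm_inner_le_norm (𝕜 := ℂ) _ _)
      have h3 := (Q T 1).le_opNorm h
      nlinarith
    have ha1' : a T 1 h ^ 2 ≤ ‖h‖ ^ 2 * ‖Q T 1 h‖ ^ 2 := by
      have h2 : a T 1 h ≤ ‖h‖ * ‖Q T 1 h‖ :=
        (Complex.re_le_norm _).trans (norm_inner_le_norm (𝕜 := ℂ) _ _)
      have h3 := a_nonneg T 1 h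
      nlinarith
    -- variance
    have hvar : ‖B h‖ ^ 2 * ‖h‖ ^ 2 - a T n h ^ 2 ≤ ‖h‖ ^ 2 * (ε * ‖h‖) ^ 2 := by
      have h2 : ‖B h - l • h‖ ^ 2 = ‖B h‖ ^ 2 - 2 * l * a T n h + l ^ 2 * ‖h‖ ^ 2 := by
        rw [norm_sub_sq (𝕜 := ℂ), norm_smul, Real.norm_eq_abs, mul_pow, sq_abs]
        have h3 : RCLike.re (inner ℂ (B h) (l • h) : ℂ) = l * a T n h := by
          rw [inner_smul_right_eq_smul]
          change ((l : ℝ) • (inner ℂ (B h) h : ℂ)).re = _
          rw [Complex.real_smul, Complex.re_ofReal_mul]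
          have h4 : (inner ℂ (B h) h : ℂ) = inner ℂ h (B h) := by
            nth_rewrite 1 [hB]
            rw [← Q_sa, adjoint_inner_left]
          rw [h4]
          rfl
        rw [h3]
        ring
      have h3 : ‖B h - l • h‖ ^ 2 ≤ (ε * ‖h‖) ^ 2 := by gcongr
      rw [h2] at h3
      nlinarith [sq_nonneg (l * ‖h‖ ^ 2 - a T n h), sq_nonneg (‖h‖)]
    -- conclusion
    have hfin : ‖X h‖ ^ 2 ≤ (‖Q T 1‖ / (l - ε) * ε * ‖h‖) ^ 2 := by
      rw [hXn]
      set A1 := a T 1 h with hA1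
      set A2 := a T 2 h with hA2
      set An := a T n h with hAn
      set nB := ‖B h‖ with hnB
      set nh := ‖h‖ with hnh
      set q1 := ‖Q T 1 h‖ with hq1
      have hA10 : 0 ≤ A1 := a_nonneg T 1 h
      -- (A2 - q1²) An² nh² ≤ A1² (nB² nh² - An²) ≤ A1² nh² (ε nh)²
      have h2 : (A2 - q1 ^ 2) * (An ^ 2 * nh ^ 2) ≤ A1 ^ 2 * (nh ^ 2 * (ε * nh) ^ 2) := by
        have h3 : A2 * An ^ 2 * nh ^ 2 ≤ A1 ^ 2 * nB ^ 2 * nh ^ 2 := by gcongr
        have h4 : A1 ^ 2 * An ^ 2 ≤ nh ^ 2 * q1 ^ 2 * An ^ 2 := by gcongr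
        have h5 : A1 ^ 2 * (nB ^ 2 * nh ^ 2 - An ^ 2) ≤ A1 ^ 2 * (nh ^ 2 * (ε * nh) ^ 2) := by
          gcongr
        nlinarith
      have h3 : (A2 - q1 ^ 2) * An ^ 2 ≤ A1 ^ 2 * (ε * nh) ^ 2 := by
        have h4 : 0 < nh ^ 2 := by positivity
        have h5 : (A2 - q1 ^ 2) * An ^ 2 * nh ^ 2 ≤ A1 ^ 2 * (ε * nh) ^ 2 * nh ^ 2 := by
          nlinarith
        exact le_of_mul_le_mul_right h5 h4
      have h4 : A1 * (l - ε) ≤ ‖Q T 1‖ * An := by
        have h5 : A1 * (l - ε) ≤ ‖Q T 1‖ * nh ^ 2 * (l - ε) := by gcongr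
        have h6 : ‖Q T 1‖ * ((l - ε) * nh ^ 2) ≤ ‖Q T 1‖ * An := by gcongr
        linarith
      have h5 : (A1 * (l - ε)) ^ 2 ≤ (‖Q T 1‖ * An) ^ 2 := by gcongr
      have h6 : (A2 - q1 ^ 2) * An ^ 2 * (l - ε) ^ 2 ≤ (‖Q T 1‖ * ε * nh) ^ 2 * An ^ 2 := by
        calc (A2 - q1 ^ 2) * An ^ 2 * (l - ε) ^ 2 ≤ A1 ^ 2 * (ε * nh) ^ 2 * (l - ε) ^ 2 := by gcongr
          _ = (A1 * (l - ε)) ^ 2 * (ε * nh) ^ 2 := by ring
          _ ≤ (‖Q T 1‖ * An) ^ 2 * (ε * nh) ^ 2 := by gcongr
          _ = _ := by ring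
      have h7 : (A2 - q1 ^ 2) * (l - ε) ^ 2 ≤ (‖Q T 1‖ * ε * nh) ^ 2 := by
        have h8 : 0 < An ^ 2 := by positivity
        have h9 : (A2 - q1 ^ 2) * (l - ε) ^ 2 * An ^ 2 ≤ (‖Q T 1‖ * ε * nh) ^ 2 * An ^ 2 := by
          linarith
        exact le_of_mul_le_mul_right h9 h8
      have h8 : (‖Q T 1‖ / (l - ε) * ε * nh) ^ 2 = (‖Q T 1‖ * ε * nh) ^ 2 / (l - ε) ^ 2 := by
        rw [← div_pow]
        congr 1
        ring
      rw [h8, le_div_iff₀ (by positivity)]
      exact h7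
    exact le_of_sq_le_sq hfin (by positivity)
  -- R B = 0, B R = 0
  have hRB : R * B = 0 := by rw [hX, mul_assoc, hXB, mul_zero]
  have hBR : B * R = 0 := by
    have h1 := congrArg star hRB
    rw [star_mul, star_zero] at h1
    have h2 : star R = R := hRsa
    have h3 : star B = B := Q_sa T n
    rwa [h2, h3] at h1
  have hXR : ∀ h, X (R h) = 0 := by
    intro h
    have h1 : B (R h) = 0 := by
      change (B * R) h = 0
      rw [hBR]
      rfl
    have h2 : a T n (R h) = 0 := by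
      unfold a
      rw [← hB, h1, inner_zero_right]
      rfl
    have h3 := logconvex_zero (a := fun k => a T k (R h)) (hlc (R h)) n hn h2
    have h4 := hXn (R h)
    rw [h3, zero_sub] at h4
    have h5 : ‖X (R h)‖ ^ 2 ≤ 0 := by rw [h4]; nlinarith [sq_nonneg ‖Q T 1 (R h)‖]
    have h6 : ‖X (R h)‖ ^ 2 = 0 := le_antisymm h5 (sq_nonneg _)
    exact norm_eq_zero.1 (pow_eq_zero_iff two_ne_zero |>.1 h6)
  have hR0 : R = 0 := by
    ext h
    have h1 : R (R h) = 0 := by
      nth_rewrite 1 [hX]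
      change adjoint X (X (R h)) = 0
      rw [hXR, map_zero]
    have h2 : (inner ℂ (R h) (R h) : ℂ) = 0 := by
      have h3 : adjoint R = R := hRsa
      nth_rewrite 1 [← h3]
      rw [adjoint_inner_left, h1, inner_zero_right]
    exact inner_self_eq_zero.1 h2
  rw [hR] at hR0
  exact sub_eq_zero.1 hR0

/-- the first variation -/
theorem commute_of_Q2 (hT : IsJointlyHyponormal T) (h2 : Q T 2 = Q T 1 * Q T 1) :
    IsSphericallyQuasinormal T := by
  intro i
  rw [← Q_one]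
  -- the form
  set D : H → Fin d → H := fun h j => Q T 1 (T j h) - T j (Q T 1 h) with hD
  have key : ∀ h, ∑ j, ‖D h j‖ ^ 2 ≤ 0 := by
    intro h
    have hF : ∀ s : ℝ, ‖∑ j, adjoint (T j) (T j h + s • D h j)‖ ^ 2 ≤
        ∑ j, a T 1 (T j h + s • D h j) := fun s => hyp_ineq hT _
    set E := ∑ j, adjoint (T j) (D h j) with hE
    have e1 : ∀ s : ℝ, ∑ j, adjoint (T j) (T j h + s • D h j) = Q T 1 h + s • E := by
      intro s
      rw [Q_one, sum_apply, hE, Finset.smul_sum, ← Finset.sum_add_distrib]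
      refine Finset.sum_congr rfl fun j _ => ?_
      rw [map_add, ← Complex.coe_smul, map_smul, Complex.coe_smul]
      rfl
    have e2 : ∀ (x y : H) (s : ℝ), a T 1 (x + s • y) =
        a T 1 x + 2 * s * (inner ℂ y (Q T 1 x) : ℂ).re + s ^ 2 * a T 1 y := by
      intro x y s
      have h3 : (inner ℂ x (Q T 1 y) : ℂ).re = (inner ℂ y (Q T 1 x) : ℂ).re := by
        rw [← inner_conj_symm, Complex.conj_re]
        nth_rewrite 1 [← Q_sa]
        rw [adjoint_inner_left]
      unfold a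
      rw [map_add, ← Complex.coe_smul, map_smul, inner_add_left, inner_add_right, inner_add_right,
        inner_smul_left, inner_smul_left, inner_smul_right, inner_smul_right, Complex.conj_ofReal]
      simp only [Complex.add_re, Complex.re_ofReal_mul]
      rw [h3]
      ring
    have e3 : ‖Q T 1 h‖ ^ 2 = ∑ j, a T 1 (T j h) := by
      rw [← a_succ]
      unfold a
      rw [h2]
      change _ = (inner ℂ h (Q T 1 (Q T 1 h)) : ℂ).re
      nth_rewrite 2 [← Q_sa]
      rw [adjoint_inner_right, inner_self_eq_norm_sq_to_K]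
      norm_cast
    have e4 : (inner ℂ E (Q T 1 h) : ℂ).re = ∑ j, (inner ℂ (D h j) (T j (Q T 1 h)) : ℂ).re := by
      rw [hE, sum_inner, Complex.re_sum]
      refine Finset.sum_congr rfl fun j _ => ?_
      rw [adjoint_inner_left]
    have e5 : ∑ j, (inner ℂ (D h j) (Q T 1 (T j h)) : ℂ).re - (inner ℂ E (Q T 1 h) : ℂ).re =
        ∑ j, ‖D h j‖ ^ 2 := by
      rw [e4, ← Finset.sum_sub_distrib]
      refine Finset.sum_congr rfl fun j _ => ?_
      rw [← Complex.sub_re, ← inner_sub_right]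
      have : Q T 1 (T j h) - T j (Q T 1 h) = D h j := rfl
      rw [this, inner_self_eq_norm_sq_to_K]
      norm_cast
    have e6 : ∀ s : ℝ, ‖Q T 1 h + s • E‖ ^ 2 =
        ‖Q T 1 h‖ ^ 2 + 2 * s * (inner ℂ E (Q T 1 h) : ℂ).re + s ^ 2 * ‖E‖ ^ 2 := by
      intro s
      rw [norm_add_sq (𝕜 := ℂ), norm_smul, Real.norm_eq_abs, mul_pow, sq_abs]
      have h3 : RCLike.re (inner ℂ (Q T 1 h) (s • E) : ℂ) = s * (inner ℂ E (Q T 1 h) : ℂ).re := by
        rw [inner_smul_right_eq_smul]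
        change ((s : ℝ) • (inner ℂ (Q T 1 h) E : ℂ)).re = _
        rw [Complex.real_smul, Complex.re_ofReal_mul, ← inner_conj_symm, Complex.conj_re]
      rw [h3]
      ring
    set c := ∑ j, a T 1 (D h j) with hc
    -- for every s : 0 ≤ 2 s ∑ ‖D‖² + s² c
    have e7 : ∀ s : ℝ, 0 ≤ 2 * s * ∑ j, ‖D h j‖ ^ 2 + s ^ 2 * c := by
      intro s
      have h3 := hF s
      rw [e1, e6] at h3
      simp only [e2] at h3
      rw [Finset.sum_add_distrib, Finset.sum_add_distrib, ← Finset.mul_sum, ← Finset.mul_sum] at h3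
      rw [← e3] at h3
      have h4 : 0 ≤ s ^ 2 * ‖E‖ ^ 2 := by positivity
      rw [← e5, hc]
      nlinarith
    -- let s → 0 from the left
    have hc0 : 0 ≤ c := Finset.sum_nonneg fun j _ => a_nonneg T 1 _
    by_contra hlt
    push Not at hlt
    set S := ∑ j, ‖D h j‖ ^ 2 with hS
    have h3 := e7 (-(S / (c + 1)))
    have h4 : 0 < c + 1 := by linarith
    have h5 : 2 * -(S / (c + 1)) * S + (-(S / (c + 1))) ^ 2 * c =
        -(S ^ 2 / (c + 1)) * (2 - c / (c + 1)) := by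
      field_simp
      ring
    rw [h5] at h3
    have h6 : c / (c + 1) < 1 := by rw [div_lt_one h4]; linarith
    have h7 : 0 < S ^ 2 / (c + 1) := by positivity
    nlinarith
  ext h
  have h3 := key h
  have h4 : ‖D h i‖ ^ 2 ≤ ∑ j, ‖D h j‖ ^ 2 :=
    Finset.single_le_sum (f := fun j => ‖D h j‖ ^ 2) (fun j _ => sq_nonneg _) (Finset.mem_univ i)
  have h5 : ‖D h i‖ ^ 2 = 0 := le_antisymm (h4.trans h3) (sq_nonneg _)
  have h6 : D h i = 0 := norm_eq_zero.1 (pow_eq_zero_iff two_ne_zero |>.1 h5)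
  exact (sub_eq_zero.1 h6).symm

end main

/-- **Hyponormal roots of spherically quasinormal tuples.** A commuting, jointly hyponormal tuple
with a spherically quasinormal power `T ^ n`, `n ≥ 1`, is spherically quasinormal. -/
theorem result {H : Type*} [NormedAddCommGroup H] [InnerProductSpace ℂ H] [CompleteSpace H]
    {d : ℕ} (T : Fin d → H →L[ℂ] H) (_ : IsCommuting T) (hT : IsJointlyHyponormal T) (n : ℕ)
    (hn : 1 ≤ n) (hq : IsSphericallyQuasinormal (tuplePower T n)) :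
    IsSphericallyQuasinormal T := by
  rcases Nat.lt_or_ge n 2 with h | h
  · have h1 : n = 1 := by omega
    subst h1
    intro i
    have h2 := hq (fun _ => i)
    rw [← Q_word] at h2
    rw [← Q_one]
    have h3 : tuplePower T 1 (fun _ => i) = T i := by
      unfold tuplePower
      simp
    rw [h3] at h2
    exact h2
  · exact commute_of_Q2 hT (Q2_eq hT n h hq)

end Pool.Agent.Results.MP_20dafb_an.HyponormalRoots
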